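import Pool.Agent.helper33.CK.C3

/-!
CK project, module N2: a minimal projection of the strong closure below `e` (Zorn).
-/

namespace Pool.Agent.helper32.CK

open scoped InnerProductSpace ComplexOrder
open Filter Topology

universe u v w

section N2
variable {A : Type u} [NonUnitalCStarAlgebra A] {H : Type v} [NormedAddCommGroup H]
  [InnerProductSpace ℂ H] [CompleteSpace H] {σ : A →⋆ₙₐ[ℂ] (H →L[ℂ] H)}

lemma N2_proj (p : H →L[ℂ] H) (hp : IsStarProjection p) :
    ∃ (U : Submodule ℂ H) (_ : U.HasOrthogonalProjection), p = 1 - U.starProjection := by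
  obtain ⟨K, hK, h⟩ := isStarProjection_iff_eq_starProjection.1 hp.one_sub
  exact ⟨K, hK, by rw [← h]; abel⟩

/-- Zorn step -/
lemma N2_chain (x0 : H) (e : H →L[ℂ] H) (c : Set (Submodule ℂ H)) (hne : c.Nonempty)
    (hc : ∀ U ∈ c, ∃ _ : U.HasOrthogonalProjection, (1 - U.starProjection) ∈ Cl σ ∧
      e * (1 - U.starProjection) = 1 - U.starProjection ∧
      3 / 4 ≤ ‖(1 - U.starProjection) x0‖ ^ 2) (hchain : IsChain (· ≤ ·) c) :
    ∃ W : Submodule ℂ H, (∃ _ : W.HasOrthogonalProjection, (1 - W.starProjection) ∈ Cl σ ∧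
      e * (1 - W.starProjection) = 1 - W.starProjection ∧
      3 / 4 ≤ ‖(1 - W.starProjection) x0‖ ^ 2) ∧ ∀ z ∈ c, z ≤ W := by
  classical
  have hinst : ∀ i : c, (i.1).HasOrthogonalProjection := fun i => (hc i.1 i.2).1
  have : Nonempty c := hne.to_subtype
  have : IsDirectedOrder c := ⟨fun a b => by
    rcases hchain.total a.2 b.2 with h | h
    · exact ⟨b, h, le_rfl⟩
    · exact ⟨a, le_rfl, h⟩⟩
  have key := Submodule.starProjection_tendsto_closure_iSup (𝕜 := ℂ) (fun i : c => i.1)
    (fun a b h => h)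
  set W : Submodule ℂ H := (⨆ i : c, i.1).topologicalClosure with hW
  have key' : ∀ x, Tendsto (fun i : c => (1 - i.1.starProjection) x) atTop
      (𝓝 ((1 - W.starProjection) x)) := by
    intro x
    simpa using (key x).const_sub x
  refine ⟨W, ⟨inferInstance, ?_, ?_, ?_⟩, ?_⟩
  · intro F κ hκ
    have h1 : ∀ᶠ i : c in atTop, ∀ v ∈ F, ‖(1 - i.1.starProjection) v - (1 - W.starProjection) v‖
        ≤ κ / 2 := by
      rw [Filter.eventually_all_finset]
      intro v _
      have h2 := (key' v).sub_const ((1 - W.starProjection) v)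
      rw [sub_self] at h2
      have h3 := h2.norm
      rw [norm_zero] at h3
      exact (h3.eventually (eventually_le_nhds (by positivity)))
    obtain ⟨i, hi⟩ := h1.exists
    obtain ⟨_, h3, _, _⟩ := hc i.1 i.2
    obtain ⟨y, hy, hy1, hyF⟩ := h3 F (κ / 2) (by positivity)
    refine ⟨y, hy, hy1, fun v hv => ?_⟩
    calc ‖σ y v - (1 - W.starProjection) v‖ = ‖(σ y v - (1 - i.1.starProjection) v) +
          ((1 - i.1.starProjection) v - (1 - W.starProjection) v)‖ := by congr 1; abel
      _ ≤ κ / 2 + κ / 2 := (norm_add_le _ _).trans (add_le_add (hyF v hv) (hi v hv))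
      _ = κ := by ring
  · ext x
    have h1 := (e.continuous.tendsto _).comp (key' x)
    refine tendsto_nhds_unique (h1.congr fun i => ?_) (key' x)
    obtain ⟨_, _, h3, _⟩ := hc i.1 i.2
    exact congrArg (fun T : H →L[ℂ] H => T x) h3
  · exact ge_of_tendsto' ((key' x0).norm.pow 2) fun i => by
      obtain ⟨_, _, _, h3⟩ := hc i.1 i.2
      exact h3
  · intro z hz
    exact (le_iSup (fun i : c => i.1) ⟨z, hz⟩).trans (Submodule.le_topologicalClosure _)

theorem exists_min_proj (x0 : H) (hx0 : ‖x0‖ ≤ 1) (e : H →L[ℂ] H) (he : e ∈ Cl σ)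
    (he1 : IsStarProjection e) (he2 : 3 / 4 ≤ ‖e x0‖ ^ 2)
    (htwo : ∀ r ∈ Cl σ, IsStarProjection r → e * r = r → ‖r x0‖ ^ 2 ≤ 1 / 4 ∨
      3 / 4 ≤ ‖r x0‖ ^ 2) :
    ∃ p ∈ Cl σ, IsStarProjection p ∧ e * p = p ∧ 3 / 4 ≤ ‖p x0‖ ^ 2 ∧
      ∀ r ∈ Cl σ, IsStarProjection r → p * r = r → r = 0 ∨ r = p := by
  classical
  let S : Set (Submodule ℂ H) := {U | ∃ _ : U.HasOrthogonalProjection,
    (1 - U.starProjection) ∈ Cl σ ∧ e * (1 - U.starProjection) = 1 - U.starProjection ∧
      3 / 4 ≤ ‖(1 - U.starProjection) x0‖ ^ 2}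
  obtain ⟨U₀, hU₀, heU⟩ := N2_proj e he1
  have hS0 : U₀ ∈ S := ⟨hU₀, by rwa [← heU], by rw [← heU]; exact he1.isIdempotentElem, by rwa [← heU]⟩
  obtain ⟨U, -, hU⟩ := zorn_le_nonempty₀ S (fun c hcS hch y hy => by
    obtain ⟨W, hW, hle⟩ := N2_chain (σ := σ) x0 e c ⟨y, hy⟩ (fun U hU => hcS hU) hch
    exact ⟨W, hW, hle⟩) U₀ hS0
  obtain ⟨hUi, h1, h2, h3⟩ := hU.prop
  have hpP : IsStarProjection (1 - U.starProjection : H →L[ℂ] H) :=
    (isStarProjection_starProjection (U := U)).one_sub
  -- minimality in terms of the norm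
  have main : ∀ r ∈ Cl σ, IsStarProjection r → (1 - U.starProjection) * r = r →
      3 / 4 ≤ ‖r x0‖ ^ 2 → r = 1 - U.starProjection := by
    intro r hr hr1 hpr hr2
    obtain ⟨U', hU', hrU⟩ := N2_proj r hr1
    have hS : U' ∈ S := ⟨hU', by rwa [← hrU], by
      rw [← hrU]
      calc e * r = e * ((1 - U.starProjection) * r) := by rw [hpr]
        _ = r := by rw [← mul_assoc, h2, hpr], by rwa [← hrU]⟩
    have hrp : r * (1 - U.starProjection) = r := by
      have := congrArg star hpr
      rwa [star_mul, hr1.isSelfAdjoint.star_eq, hpP.isSelfAdjoint.star_eq] at this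
    have hle : U ≤ U' := by
      intro v hv
      have e1 : (1 - U.starProjection : H →L[ℂ] H) v = 0 := by
        simp [Submodule.starProjection_eq_self_iff.2 hv]
      have e2 : r v = 0 := by
        rw [← hrp]
        change r ((1 - U.starProjection : H →L[ℂ] H) v) = 0
        rw [e1, map_zero]
      rw [hrU] at e2
      have e3 : U'.starProjection v = v := by
        have e4 : v - U'.starProjection v = 0 := by simpa using e2
        exact (sub_eq_zero.1 e4).symm
      exact Submodule.starProjection_eq_self_iff.1 e3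
    have heq : U' = U := le_antisymm (hU.le_of_ge hS hle) hle
    subst heq
    exact hrU
  obtain ⟨p, hp⟩ : ∃ p, p = 1 - U.starProjection := ⟨_, rfl⟩
  rw [← hp] at h1 h2 h3 hpP main
  refine ⟨p, h1, hpP, h2, h3, fun r hr hr1 hpr => ?_⟩
  rcases htwo r hr hr1 (by
      calc e * r = e * (p * r) := by rw [hpr]
        _ = r := by rw [← mul_assoc, h2, hpr]) with h4 | h4
  · left
    have hrp : r * p = r := by
      have := congrArg star hpr
      rwa [star_mul, hr1.isSelfAdjoint.star_eq, hpP.isSelfAdjoint.star_eq] at this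
    have hq := Cl.sub_proj h1 hr hpP hr1 hpr
    have hq1 : IsStarProjection (p - r) := by
      refine ⟨?_, hpP.isSelfAdjoint.sub hr1.isSelfAdjoint⟩
      have e1 : p * p = p := hpP.isIdempotentElem
      have e2 : r * r = r := hr1.isIdempotentElem
      change (p - r) * (p - r) = p - r
      rw [sub_mul, mul_sub, mul_sub, e1, e2, hpr, hrp]
      abel
    have hpq : p * (p - r) = p - r := by
      have e1 : p * p = p := hpP.isIdempotentElem
      rw [mul_sub, e1, hpr]
    have heq : e * (p - r) = p - r := by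
      calc e * (p - r) = e * (p * (p - r)) := by rw [hpq]
        _ = p - r := by rw [← mul_assoc, h2, hpq]
    have hpyth : ‖p x0‖ ^ 2 = ‖r x0‖ ^ 2 + ‖(p - r) x0‖ ^ 2 := by
      have e1 : p x0 = r x0 + (p - r) x0 := by simp
      have e2 : ⟪r x0, (p - r) x0⟫_ℂ = 0 := by
        have h5 : r * (p - r) = 0 := by
          have e2 : r * r = r := hr1.isIdempotentElem
          rw [mul_sub, hrp, e2, sub_self]
        have h6 : ⟪r x0, (p - r) x0⟫_ℂ = ⟪x0, (r * (p - r)) x0⟫_ℂ :=
          hr1.isSelfAdjoint.isSymmetric x0 ((p - r) x0)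
        rw [h6, h5]
        simp
      rw [e1]
      have := norm_add_sq_eq_norm_sq_add_norm_sq_of_inner_eq_zero (𝕜 := ℂ) (r x0) ((p - r) x0) e2
      simpa [sq] using this
    have h7 : 3 / 4 ≤ ‖(p - r) x0‖ ^ 2 := by
      rcases htwo _ hq hq1 heq with h5 | h5
      · exfalso
        linarith
      · exact h5
    have h8 := main _ hq hq1 hpq h7
    have : p - r = p - 0 := by rw [h8, sub_zero]
    exact sub_right_injective this
  · right
    exact main r hr hr1 hpr h4

end N2

end Pool.Agent.helper32.CK
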