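import Pool.Agent.helper33.CK.C3

/-!
CK project, module N3: a minimal projection of the strong closure gives an irreducible
representation.
-/

namespace Pool.Agent.helper32.CK

open scoped InnerProductSpace ComplexOrder
open Filter Topology

universe u v w

section N3
variable {A : Type u} [NonUnitalCStarAlgebra A] {H : Type v} [NormedAddCommGroup H]
  [InnerProductSpace ℂ H] [CompleteSpace H] {σ : A →⋆ₙₐ[ℂ] (H →L[ℂ] H)}

/-- a selfadjoint element is the difference of two squares -/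
lemma N3_sub (a : A) (ha : IsSelfAdjoint a) : ∃ x y : A, a = star x * x - star y * y := by
  have c1 : Continuous fun t : ℝ => Real.sqrt (max t 0) := by fun_prop
  have c2 : Continuous fun t : ℝ => Real.sqrt (max (-t) 0) := by fun_prop
  have s1 : IsSelfAdjoint (cfcₙ (fun t : ℝ => Real.sqrt (max t 0)) a) := IsSelfAdjoint.cfcₙ
  have s2 : IsSelfAdjoint (cfcₙ (fun t : ℝ => Real.sqrt (max (-t) 0)) a) := IsSelfAdjoint.cfcₙ
  refine ⟨cfcₙ (fun t : ℝ => Real.sqrt (max t 0)) a, cfcₙ (fun t : ℝ => Real.sqrt (max (-t) 0)) a,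
    ?_⟩
  rw [s1.star_eq, s2.star_eq, ← cfcₙ_mul (fun t : ℝ => Real.sqrt (max t 0))
    (fun t : ℝ => Real.sqrt (max t 0)) a c1.continuousOn (by simp) c1.continuousOn (by simp),
    ← cfcₙ_mul (fun t : ℝ => Real.sqrt (max (-t) 0))
    (fun t : ℝ => Real.sqrt (max (-t) 0)) a c2.continuousOn (by simp) c2.continuousOn (by simp),
    ← cfcₙ_sub _ _ a (by fun_prop) (by simp) (by fun_prop) (by simp)]
  conv_lhs => rw [← cfcₙ_id' ℝ a]
  congr 1
  funext t
  rw [Real.mul_self_sqrt (le_max_right _ _), Real.mul_self_sqrt (le_max_right _ _)]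
  rcases le_total t 0 with h | h
  · rw [max_eq_right h, max_eq_left (by linarith)]; ring
  · rw [max_eq_left h, max_eq_right (by linarith)]; ring

/-- `p σ(x^* x) p` is a multiple of `p` -/
lemma N3_sq (p : H →L[ℂ] H) (hp : p ∈ Cl σ) (hp1 : IsStarProjection p)
    (hmin : ∀ r ∈ Cl σ, IsStarProjection r → p * r = r → r = 0 ∨ r = p) (η : H)
    (hη : ‖η‖ = 1) (hpη : p η = η) (x : A) (hx : ‖x‖ ≤ 1) :
    ∃ c : ℂ, p * σ (star x * x) * p = c • p := by
  have hpp : p * p = p := hp1.isIdempotentElem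
  have hps : star p = p := hp1.isSelfAdjoint.star_eq
  obtain ⟨z, hz⟩ : ∃ z, z = p * σ (star x * x) * p := ⟨_, rfl⟩
  have hzf : z = star (σ x * p) * (σ x * p) := by
    rw [hz, star_mul, hps, map_mul, map_star]
    noncomm_ring
  have hpz : p * z = z := by rw [hz, ← mul_assoc, ← mul_assoc, hpp]
  have hzp : z * p = z := by rw [hz, mul_assoc, hpp]
  have hzC : z ∈ Cl σ := by
    rw [hz]
    refine Cl.sandwich hp _ (IsSelfAdjoint.star_mul_self x) ?_
    rw [CStarRing.norm_star_mul_self]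
    exact mul_le_one₀ hx (norm_nonneg _) hx
  have hzq : ∀ v, ⟪v, z v⟫_ℂ = ((‖σ x (p v)‖ ^ 2 : ℝ) : ℂ) := by
    intro v
    have : ⟪v, z v⟫_ℂ = ⟪(σ x * p) v, (σ x * p) v⟫_ℂ := by
      rw [hzf, ContinuousLinearMap.star_eq_adjoint]
      change ⟪v, (ContinuousLinearMap.adjoint (σ x * p)) ((σ x * p) v)⟫_ℂ = _
      rw [ContinuousLinearMap.adjoint_inner_right]
    rw [this]
    change ⟪σ x (p v), σ x (p v)⟫_ℂ = _
    rw [inner_self_eq_norm_sq_to_K]
    simp
  have hzpos : z.IsPositive := by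
    rw [hzf, ContinuousLinearMap.star_eq_adjoint]
    exact ContinuousLinearMap.isPositive_adjoint_comp_self _
  have hσx : ‖σ x‖ ≤ 1 := (NonUnitalStarAlgHom.norm_apply_le σ x).trans hx
  have hq : ∀ v, (⟪v, z v⟫_ℂ).re = ‖σ x (p v)‖ ^ 2 := fun v => by
    rw [hzq v, Complex.ofReal_re]
  have hqle : ∀ v, ‖σ x (p v)‖ ^ 2 ≤ ‖p v‖ ^ 2 := by
    intro v
    have : ‖σ x (p v)‖ ≤ 1 * ‖p v‖ := (σ x).le_of_opNorm_le hσx _
    rw [one_mul] at this
    gcongr
  have hppv : ∀ v, p (p v) = p v := fun v => congrArg (fun T : H →L[ℂ] H => T v) hpp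
  have halt : ∀ l : ℝ, 0 ≤ l → l < 1 → (∀ v, l * ‖p v‖ ^ 2 ≤ ‖σ x (p v)‖ ^ 2) ∨
      ∀ v, ‖σ x (p v)‖ ^ 2 ≤ l * ‖p v‖ ^ 2 := by
    intro l hl hl1
    obtain ⟨r, hr, hr1, -, h3, h4, h5⟩ := Cl.spectral hzC hzpos l hl hl1
    rcases hmin r hr hr1 (h5 p hpz) with h | h
    · right
      intro v
      have := h4 (p v) (by simp [h])
      rwa [hq, hppv] at this
    · left
      intro v
      have := h3 v
      rwa [h, hq, hppv] at this
  set c : ℝ := ‖σ x (p η)‖ ^ 2 with hc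
  have hc0 : 0 ≤ c := by positivity
  have hc1 : c ≤ 1 := by
    have := hqle η
    rwa [hpη, hη, one_pow, ← hpη] at this
  have hpη1 : ‖p η‖ ^ 2 = 1 := by rw [hpη, hη, one_pow]
  have hqc : ∀ v, ‖σ x (p v)‖ ^ 2 = c * ‖p v‖ ^ 2 := by
    intro v
    rcases eq_or_lt_of_le (sq_nonneg ‖p v‖) with h0 | h0
    · have := hqle v
      rw [← h0] at this ⊢
      rw [mul_zero]
      exact le_antisymm this (sq_nonneg _)
    obtain ⟨u, hu⟩ : ∃ u, ‖σ x (p v)‖ ^ 2 = u * ‖p v‖ ^ 2 :=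
      ⟨‖σ x (p v)‖ ^ 2 / ‖p v‖ ^ 2, (div_mul_cancel₀ _ h0.ne').symm⟩
    have hu0 : 0 ≤ u := by
      have h1 := sq_nonneg ‖σ x (p v)‖
      rw [hu] at h1
      exact nonneg_of_mul_nonneg_left h1 h0
    have hu1 : u ≤ 1 := by
      have h1 := hqle v
      rw [hu] at h1
      exact le_of_mul_le_mul_right (by linarith) h0
    rw [hu]
    congr 1
    by_contra hne
    obtain ⟨l, hl⟩ : ∃ l, l = (c + u) / 2 := ⟨_, rfl⟩
    have hl1 : l < 1 := by
      rcases lt_or_gt_of_ne hne with h | h <;> linarith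
    rcases halt l (by linarith) hl1 with h | h
    · have h1 := h η
      have h2 := h v
      rw [hu] at h2
      rw [hpη1, mul_one] at h1
      have h3 := le_of_mul_le_mul_right h2 h0
      rcases lt_or_gt_of_ne hne with h | h <;> linarith
    · have h1 := h η
      have h2 := h v
      rw [hu] at h2
      rw [hpη1, mul_one] at h1
      have h3 := le_of_mul_le_mul_right h2 h0
      rcases lt_or_gt_of_ne hne with h | h <;> linarith
  refine ⟨(c : ℂ), ?_⟩
  rw [← hz, ← sub_eq_zero]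
  have key : ∀ v, ⟪((z - (c : ℂ) • p : H →L[ℂ] H) : H →ₗ[ℂ] H) v, v⟫_ℂ = 0 := by
    intro v
    have e1 : ⟪z v, v⟫_ℂ = ((‖σ x (p v)‖ ^ 2 : ℝ) : ℂ) := by
      rw [← inner_conj_symm, hzq, Complex.conj_ofReal]
    have e2 : ⟪p v, v⟫_ℂ = ((‖p v‖ ^ 2 : ℝ) : ℂ) := by
      have : ⟪p v, v⟫_ℂ = ⟪p v, p v⟫_ℂ := by
        conv_lhs => rw [← hppv v]
        exact hp1.isSelfAdjoint.isSymmetric _ _
      rw [this, inner_self_eq_norm_sq_to_K]
      simp
    change ⟪z v - (c : ℂ) • p v, v⟫_ℂ = 0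
    rw [inner_sub_left, inner_smul_left, e1, e2, hqc, Complex.conj_ofReal]
    push_cast
    ring
  have := (inner_map_self_eq_zero _).1 key
  ext v
  exact congrArg (fun T : H →ₗ[ℂ] H => T v) this

/-- `p σ(a) p` is a multiple of `p` -/
lemma N3_all (p : H →L[ℂ] H) (hp : p ∈ Cl σ) (hp1 : IsStarProjection p)
    (hmin : ∀ r ∈ Cl σ, IsStarProjection r → p * r = r → r = 0 ∨ r = p) (η : H)
    (hη : ‖η‖ = 1) (hpη : p η = η) (a : A) : ∃ c : ℂ, p * σ a * p = c • p := by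
  have h1 : ∀ x : A, ∃ c : ℂ, p * σ (star x * x) * p = c • p := by
    intro x
    rcases eq_or_ne x 0 with rfl | hx
    · exact ⟨0, by simp⟩
    have hn : ‖x‖ ≠ 0 := norm_ne_zero_iff.2 hx
    obtain ⟨c, hc⟩ := N3_sq p hp hp1 hmin η hη hpη ((‖x‖⁻¹ : ℂ) • x) (by
      rw [norm_smul]
      simp [hn])
    refine ⟨(‖x‖ ^ 2 : ℂ) * c, ?_⟩
    have e1 : star x * x = (‖x‖ ^ 2 : ℂ) • (star ((‖x‖⁻¹ : ℂ) • x) * ((‖x‖⁻¹ : ℂ) • x)) := by
      rw [star_smul, smul_mul_smul_comm, smul_smul]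
      have : (‖x‖ ^ 2 : ℂ) * (star ((‖x‖ : ℂ)⁻¹) * (‖x‖ : ℂ)⁻¹) = 1 := by
        have h2 : (‖x‖ : ℂ) ≠ 0 := by exact_mod_cast hn
        rw [star_inv₀, Complex.star_def, Complex.conj_ofReal]
        field_simp
      rw [this, one_smul]
    rw [e1, map_smul, mul_smul_comm, smul_mul_assoc, hc, smul_smul]
  have h2 : ∀ a : A, IsSelfAdjoint a → ∃ c : ℂ, p * σ a * p = c • p := by
    intro a ha
    obtain ⟨x, y, hxy⟩ := N3_sub a ha
    obtain ⟨c, hc⟩ := h1 x
    obtain ⟨d, hd⟩ := h1 y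
    refine ⟨c - d, ?_⟩
    rw [hxy, map_sub, mul_sub, sub_mul, hc, hd, sub_smul]
  obtain ⟨c, hc⟩ := h2 (realPart a : A) (realPart a).2
  obtain ⟨d, hd⟩ := h2 (imaginaryPart a : A) (imaginaryPart a).2
  refine ⟨c + Complex.I * d, ?_⟩
  conv_lhs => rw [← realPart_add_I_smul_imaginaryPart a]
  rw [map_add, map_smul, mul_add, add_mul, hc, mul_smul_comm, smul_mul_assoc, hd, smul_smul,
    add_smul]

/-- the restriction of a representation to a closed invariant subspace -/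
lemma N3_restrict (K : Submodule ℂ H) (hK : ∀ a, ∀ v ∈ K, σ a v ∈ K) [CompleteSpace K] :
    ∃ ρ : A →⋆ₙₐ[ℂ] (K →L[ℂ] K), ∀ a (v : K), (ρ a v : H) = σ a v := by
  let R : A → (K →L[ℂ] K) := fun a =>
    ((σ a).comp K.subtypeL).codRestrict K (fun v => hK a v v.2)
  have hR : ∀ a (v : K), (R a v : H) = σ a v := fun a v => rfl
  refine ⟨{ toFun := R, map_smul' := ?_, map_zero' := ?_, map_add' := ?_, map_mul' := ?_,
            map_star' := ?_ }, hR⟩
  · intro c a
    ext v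
    rw [hR]
    simp [hR]
  · ext v
    rw [hR]
    simp
  · intro a b
    ext v
    rw [hR]
    simp [hR]
  · intro a b
    ext v
    rw [hR]
    change σ (a * b) v = σ a (R b v)
    rw [hR, map_mul]
    rfl
  · intro a
    rw [ContinuousLinearMap.star_eq_adjoint, ContinuousLinearMap.eq_adjoint_iff]
    intro x y
    rw [Submodule.coe_inner, Submodule.coe_inner, hR, hR, map_star,
      ContinuousLinearMap.star_eq_adjoint]
    exact ContinuousLinearMap.adjoint_inner_left _ _ _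

theorem irr_of_min_proj (p : H →L[ℂ] H) (hp : p ∈ Cl σ) (hp1 : IsStarProjection p)
    (hmin : ∀ r ∈ Cl σ, IsStarProjection r → p * r = r → r = 0 ∨ r = p) (η : H)
    (hη : ‖η‖ = 1) (hpη : p η = η) :
    ∃ (K : Type v) (_ : NormedAddCommGroup K) (_ : InnerProductSpace ℂ K) (_ : CompleteSpace K)
      (ρ : A →⋆ₙₐ[ℂ] (K →L[ℂ] K)) (η' : K), Irr ρ ∧ ‖η'‖ = 1 ∧
      ∀ a, ⟪η', ρ a η'⟫_ℂ = ⟪η, σ a η⟫_ℂ := by
  -- the cyclic subspace
  let φ : A →ₗ[ℂ] H :=
    { toFun := fun a => σ a η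
      map_add' := fun a b => by simp
      map_smul' := fun c a => by simp }
  obtain ⟨K, hKdef⟩ : ∃ K, K = (LinearMap.range φ).topologicalClosure := ⟨_, rfl⟩
  have hKc : IsClosed (K : Set H) := by rw [hKdef]; exact Submodule.isClosed_topologicalClosure _
  have hφK : ∀ a, σ a η ∈ K := fun a => by
    rw [hKdef]
    exact Submodule.le_topologicalClosure _ ⟨a, rfl⟩
  have hKind : ∀ S : Set H, IsClosed S → (∀ a, σ a η ∈ S) → ∀ v ∈ K, v ∈ S := by
    intro S hS h v hv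
    rw [hKdef, ← SetLike.mem_coe, Submodule.topologicalClosure_coe] at hv
    refine closure_minimal ?_ hS hv
    rintro _ ⟨a, rfl⟩
    exact h a
  have hKinv : ∀ a, ∀ v ∈ K, σ a v ∈ K := by
    intro a
    refine hKind {v | σ a v ∈ K} (hKc.preimage (σ a).continuous) fun b => ?_
    change σ a (σ b η) ∈ K
    have : σ a (σ b η) = σ (a * b) η := by rw [map_mul]; rfl
    rw [this]
    exact hφK _
  have : CompleteSpace K := hKc.completeSpace_coe
  -- `p w` is in every closed subspace invariant under `σ`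
  have hpE : ∀ E : Set H, IsClosed E → ∀ w, (∀ a, σ a w ∈ E) → p w ∈ E := by
    intro E hE w hw
    rw [← hE.closure_eq, Metric.mem_closure_iff]
    intro κ hκ
    obtain ⟨y, -, -, hy⟩ := hp {w} (κ / 2) (by positivity)
    refine ⟨σ y w, hw y, ?_⟩
    rw [dist_comm, dist_eq_norm]
    exact lt_of_le_of_lt (hy w (Finset.mem_singleton_self w)) (by linarith)
  have hηK : η ∈ K := by
    rw [← hpη]
    exact hpE K hKc η hφK
  have hη0 : η ≠ 0 := by
    rintro rfl
    simp at hη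
  -- `p K = ℂ η`
  have hpK : ∀ w ∈ K, ∃ c : ℂ, p w = c • η := by
    have h1 : ∀ w ∈ K, w ∈ {w | p w ∈ Submodule.span ℂ {η}} := by
      refine hKind _ ?_ ?_
      · exact (Submodule.closed_of_finiteDimensional (Submodule.span ℂ {η})).preimage p.continuous
      · intro a
        obtain ⟨c, hc⟩ := N3_all p hp hp1 hmin η hη hpη a
        refine Submodule.mem_span_singleton.2 ⟨c, ?_⟩
        have h2 := congrArg (fun T : H →L[ℂ] H => T η) hc
        change p (σ a (p η)) = c • p η at h2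
        rw [hpη] at h2
        exact h2.symm
    intro w hw
    obtain ⟨c, hc⟩ := Submodule.mem_span_singleton.1 (h1 w hw)
    exact ⟨c, hc.symm⟩
  obtain ⟨ρ, hρ⟩ := N3_restrict (σ := σ) K hKinv
  refine ⟨K, inferInstance, inferInstance, inferInstance, ρ, ⟨η, hηK⟩, ⟨?_, ?_⟩, hη, fun a => ?_⟩
  · by_contra hcon
    push Not at hcon
    apply hη0
    have h1 : ∀ a, σ a η = 0 := by
      intro a
      rw [← hρ a ⟨η, hηK⟩, hcon a]
      rfl
    have := hKind {0} isClosed_singleton h1 η hηK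
    exact this
  · intro E hE hEinv
    rw [or_iff_not_imp_left]
    intro hne
    obtain ⟨v, hvE, hv0⟩ := Submodule.exists_mem_ne_zero_of_ne_bot hne
    -- some `p σ(a) v ≠ 0`
    obtain ⟨a, ha⟩ : ∃ a, p (σ a v) ≠ 0 := by
      by_contra hcon
      push Not at hcon
      have h1 : ∀ w ∈ K, w ∈ {w : H | ⟪w, (v : H)⟫_ℂ = 0} := by
        refine hKind _ ?_ ?_
        · exact isClosed_eq (continuous_id.inner continuous_const) continuous_const
        · intro a
          change ⟪σ a η, (v : H)⟫_ℂ = 0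
          have e1 : ⟪σ a η, (v : H)⟫_ℂ = ⟪η, σ (star a) v⟫_ℂ := by
            rw [map_star, ContinuousLinearMap.star_eq_adjoint,
              ContinuousLinearMap.adjoint_inner_right]
          rw [e1, ← hpη]
          have e2 : ⟪p η, σ (star a) v⟫_ℂ = ⟪η, p (σ (star a) v)⟫_ℂ :=
            hp1.isSelfAdjoint.isSymmetric _ _
          rw [e2, hcon, inner_zero_right]
      have h2 : ⟪(v : H), (v : H)⟫_ℂ = 0 := h1 v v.2
      rw [inner_self_eq_zero] at h2
      exact hv0 (by exact_mod_cast h2)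
    obtain ⟨c, hc⟩ := hpK (σ a v) (hKinv a v v.2)
    have hc0 : c ≠ 0 := by
      rintro rfl
      rw [zero_smul] at hc
      exact ha hc
    -- `η ∈ E`
    have hEc : IsClosed (Subtype.val '' (E : Set K)) :=
      (hKc.isClosedEmbedding_subtypeVal.isClosedMap) _ hE
    have h3 : p (σ a v) ∈ (Subtype.val '' (E : Set K) : Set H) := by
      refine hpE _ hEc _ fun b => ?_
      refine ⟨ρ b (ρ a v), hEinv _ _ (hEinv _ _ hvE), ?_⟩
      rw [hρ, hρ]
    obtain ⟨u, huE, hu⟩ := h3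
    have hηE : (⟨η, hηK⟩ : K) ∈ E := by
      have h4 : (⟨η, hηK⟩ : K) = c⁻¹ • u := by
        apply Subtype.ext
        rw [Submodule.coe_smul, hu, hc, smul_smul, inv_mul_cancel₀ hc0, one_smul]
      rw [h4]
      exact E.smul_mem _ huE
    rw [eq_top_iff]
    intro w _
    have h5 : (w : H) ∈ (Subtype.val '' (E : Set K) : Set H) := by
      refine hKind _ hEc (fun b => ?_) w w.2
      exact ⟨ρ b ⟨η, hηK⟩, hEinv _ _ hηE, hρ _ _⟩
    obtain ⟨u, huE, hu⟩ := h5
    have : u = w := Subtype.ext hu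
    rwa [← this]
  · rw [Submodule.coe_inner, hρ]

end N3

end Pool.Agent.helper32.CK
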